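import Pool.Agent.Helper79.GL4.GoalsA
import Pool.Agent.Helper79.GL4.GoalsB

/-!
# GL4: M2, structure of antiflag-transitive groups (MP_27a5f8_al)
-/

set_option linter.unusedVariables false

namespace Helper89M2

open Module Submodule GL4

section Dbl

/-- double counting of a relation with constant fibres -/
theorem dbl {α β : Type} [Finite α] [Finite β] (R : α → β → Prop) {a b : ℕ}
    (ha : ∀ x, Nat.card {y // R x y} = a) (hb : ∀ y, Nat.card {x // R x y} = b) :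
    Nat.card α * a = Nat.card β * b := by
  classical
  have : Fintype α := Fintype.ofFinite α
  have : Fintype β := Fintype.ofFinite β
  have e : (Σ x : α, {y // R x y}) ≃ (Σ y : β, {x // R x y}) :=
    { toFun := fun s => ⟨s.2.1, ⟨s.1, s.2.2⟩⟩
      invFun := fun s => ⟨s.2.1, ⟨s.1, s.2.2⟩⟩
      left_inv := fun s => rfl
      right_inv := fun s => rfl }
  have h1 : Nat.card (Σ x : α, {y // R x y}) = Nat.card α * a := by
    rw [Nat.card_sigma, Finset.sum_congr rfl (fun x _ => ha x), Finset.sum_const,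
      Finset.card_univ, smul_eq_mul, Nat.card_eq_fintype_card]
  have h2 : Nat.card (Σ y : β, {x // R x y}) = Nat.card β * b := by
    rw [Nat.card_sigma, Finset.sum_congr rfl (fun x _ => hb x), Finset.sum_const,
      Finset.card_univ, smul_eq_mul, Nat.card_eq_fintype_card]
  rw [← h1, ← h2, Nat.card_congr e]

/-- a total relation with constant fibres -/
theorem dbl2 {α : Type} [Finite α] [Nonempty α] (R : α → α → Prop) {a : ℕ}
    (ha : ∀ x, Nat.card {y // R x y} = a) (htot : ∀ x y, R x y ∨ R y x) :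
    Nat.card α ≤ 2 * a := by
  classical
  have : Fintype α := Fintype.ofFinite α
  have h1 : Nat.card (Σ x : α, {y // R x y}) = Nat.card α * a := by
    rw [Nat.card_sigma, Finset.sum_congr rfl (fun x _ => ha x), Finset.sum_const,
      Finset.card_univ, smul_eq_mul, Nat.card_eq_fintype_card]
  let f : (Σ x : α, {y // R x y}) ⊕ (Σ x : α, {y // R x y}) → α × α := fun s =>
    match s with
    | Sum.inl s => (s.1, s.2.1)
    | Sum.inr s => (s.2.1, s.1)
  have hf : Function.Surjective f := by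
    rintro ⟨x, y⟩
    rcases htot x y with h | h
    · exact ⟨Sum.inl ⟨x, ⟨y, h⟩⟩, rfl⟩
    · exact ⟨Sum.inr ⟨y, ⟨x, h⟩⟩, rfl⟩
  have h2 := Nat.card_le_card_of_surjective f hf
  rw [Nat.card_prod, Nat.card_sum, h1] at h2
  have h3 : 0 < Nat.card α := Nat.card_pos
  nlinarith

end Dbl

variable {F : Type} [Field F] {W : Type} [AddCommGroup W] [Module F W]

/-- the flags fixed by a Sylow subgroup, via their transitivity properties -/
def Phi (G : Subgroup (W ≃ₗ[F] W)) (x H : Submodule F W) : Prop :=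
  Pt x ∧ Hy H ∧ x ≤ H ∧
  (∀ y z, Pt y → Pt z → ¬ y ≤ H → ¬ z ≤ H →
    ∃ g ∈ G, im g x = x ∧ im g H = H ∧ im g y = z) ∧
  (∀ H₁ H₂, Hy H₁ → Hy H₂ → ¬ x ≤ H₁ → ¬ x ≤ H₂ →
    ∃ g ∈ G, im g x = x ∧ im g H = H ∧ im g H₁ = H₂)

theorem im_conj (g h : W ≃ₗ[F] W) (x : Submodule F W) :
    im (g * h * g⁻¹) (im g x) = im g (im h x) := by
  rw [im_mul, im_mul, im_inv_im]

theorem Phi.im {G : Subgroup (W ≃ₗ[F] W)} {x H : Submodule F W} (h : Phi G x H)
    {g : W ≃ₗ[F] W} (hg : g ∈ G) : Phi G (GL4.im g x) (GL4.im g H) := by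
  obtain ⟨hx, hH, hxH, h1, h2⟩ := h
  refine ⟨hx.im, hH.im, im_mono g hxH, ?_, ?_⟩
  · intro y z hy hz hyH hzH
    obtain ⟨k, hk, k1, k2, k3⟩ := h1 (GL4.im g⁻¹ y) (GL4.im g⁻¹ z) hy.im hz.im
      (fun hc => hyH (by have := im_mono g hc; rwa [im_im_inv] at this))
      (fun hc => hzH (by have := im_mono g hc; rwa [im_im_inv] at this))
    refine ⟨g * k * g⁻¹, G.mul_mem (G.mul_mem hg hk) (G.inv_mem hg), ?_, ?_, ?_⟩
    · rw [im_conj, k1]
    · rw [im_conj, k2]
    · rw [im_mul, im_mul, k3, im_im_inv]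
  · intro y z hy hz hyH hzH
    obtain ⟨k, hk, k1, k2, k3⟩ := h2 (GL4.im g⁻¹ y) (GL4.im g⁻¹ z) hy.im hz.im
      (fun hc => hyH (by have := im_mono g hc; rwa [im_im_inv] at this))
      (fun hc => hzH (by have := im_mono g hc; rwa [im_im_inv] at this))
    refine ⟨g * k * g⁻¹, G.mul_mem (G.mul_mem hg hk) (G.inv_mem hg), ?_, ?_, ?_⟩
    · rw [im_conj, k1]
    · rw [im_conj, k2]
    · rw [im_mul, im_mul, k3, im_im_inv]

section
variable [FiniteDimensional F W]

theorem ptTrans {G : Subgroup (W ≃ₗ[F] W)} (h : AntiTrans G) : PtTrans G := by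
  intro x y hx hy
  obtain ⟨H, hH, -, h1⟩ := exists_hy_not_ge (T := ⊥) (U := x)
    (fun hc => hx.ne_bot (eq_bot_iff.2 hc))
  obtain ⟨H', hH', -, h2⟩ := exists_hy_not_ge (T := ⊥) (U := y)
    (fun hc => hy.ne_bot (eq_bot_iff.2 hc))
  obtain ⟨g, hg, h3, -⟩ := h x H y H' hx hH hy hH' h1 h2
  exact ⟨g, hg, h3⟩

theorem hyTrans {G : Subgroup (W ≃ₗ[F] W)} (h : AntiTrans G) : HyTrans G := by
  intro x y hx hy
  obtain ⟨H, hH, -, h1⟩ := exists_pt_not_le (U := ⊤) (U' := x)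
    (fun hc => hx.ne_top (eq_top_iff.2 hc))
  obtain ⟨H', hH', -, h2⟩ := exists_pt_not_le (U := ⊤) (U' := y)
    (fun hc => hy.ne_top (eq_top_iff.2 hc))
  obtain ⟨g, hg, -, h3⟩ := h H x H' y hH hx hH' hy h1 h2
  exact ⟨g, hg, h3⟩

end

section fin
variable [Finite F] [FiniteDimensional F W]

theorem exists_pow : ∃ (p n : ℕ), p.Prime ∧ 1 ≤ n ∧ Nat.card F = p ^ n := by
  obtain ⟨p, hp⟩ := CharP.exists F
  have : Fintype F := Fintype.ofFinite F
  obtain ⟨n, hpp, hc⟩ := FiniteField.card F p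
  exact ⟨p, n, hpp, n.2, by rw [Nat.card_eq_fintype_card, hc]⟩

theorem ncard_pts : Set.ncard {x : Submodule F W | Pt x} = br (Nat.card F) (finrank F W) := by
  rw [← card_pts (F := F) (V := W), ← Nat.card_coe_set_eq]
  rfl

theorem ncard_hys : Set.ncard {x : Submodule F W | Hy x} = br (Nat.card F) (finrank F W) := by
  have h := card_hys_ge (F := F) (V := W) ⊥
  rw [finrank_bot, Nat.sub_zero] at h
  rw [← h, ← Nat.card_coe_set_eq]
  exact Nat.card_congr (Equiv.subtypeEquivRight fun x => by simp)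

theorem ncard_pts_le (U : Submodule F W) :
    Set.ncard {x : Submodule F W | Pt x ∧ x ≤ U} = br (Nat.card F) (finrank F U) := by
  rw [← card_pts_le U, ← Nat.card_coe_set_eq]
  rfl

theorem ncard_hys_ge (U : Submodule F W) :
    Set.ncard {x : Submodule F W | Hy x ∧ U ≤ x} =
      br (Nat.card F) (finrank F W - finrank F U) := by
  rw [← card_hys_ge U, ← Nat.card_coe_set_eq]
  rfl

theorem ncard_pts_out {H : Submodule F W} (hH : Hy H) :
    Set.ncard {x : Submodule F W | Pt x ∧ ¬ x ≤ H} = Nat.card F ^ (finrank F W - 1) := by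
  have h1 : {x : Submodule F W | Pt x ∧ ¬ x ≤ H} = {x | Pt x} \ {x | Pt x ∧ x ≤ H} := by
    ext x; simp only [Set.mem_sdiff, Set.mem_ofPred_eq]; tauto
  rw [h1, Set.ncard_sdiff (fun x hx => hx.1) (Set.toFinite _), ncard_pts, ncard_pts_le]
  rw [Hy] at hH
  rw [← hH, br_succ]
  simp

theorem ncard_hys_out {x : Submodule F W} (hx : Pt x) :
    Set.ncard {H : Submodule F W | Hy H ∧ ¬ x ≤ H} = Nat.card F ^ (finrank F W - 1) := by
  have h1 : {H : Submodule F W | Hy H ∧ ¬ x ≤ H} = {H | Hy H} \ {H | Hy H ∧ x ≤ H} := by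
    ext x; simp only [Set.mem_sdiff, Set.mem_ofPred_eq]; tauto
  rw [h1, Set.ncard_sdiff (fun x hx => hx.1) (Set.toFinite _), ncard_hys, ncard_hys_ge]
  have h2 := Submodule.finrank_le x
  rw [Pt] at hx
  rw [hx] at h2 ⊢
  obtain ⟨k, hk⟩ := Nat.exists_eq_add_of_le h2
  rw [hk, Nat.add_comm 1 k, br_succ]
  simp

attribute [local instance] GL4.subAct

theorem exists_phi {G : Subgroup (W ≃ₗ[F] W)} (h : AntiTrans G) (hm : 2 ≤ finrank F W) :
    ∃ x H, Phi G x H := by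
  obtain ⟨p, n, hp, hn, hq⟩ := exists_pow (F := F)
  have : Fact p.Prime := ⟨hp⟩
  obtain ⟨S, hS⟩ := exists_isSyl (p := p) G
  have hnd : ¬ p ∣ br (Nat.card F) (finrank F W) := by
    obtain ⟨k, hk⟩ := Nat.exists_eq_add_of_le hm
    rw [hk, show 2 + k = (1 + k) + 1 from by omega, br_succ']
    intro hc
    have h1 : p ∣ Nat.card F * br (Nat.card F) (1 + k) :=
      Dvd.dvd.mul_right (by rw [hq]; exact dvd_pow_self p (by omega)) _
    have h2 := (Nat.dvd_add_right h1).1 hc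
    exact hp.one_lt.ne' (Nat.dvd_one.1 h2)
  obtain ⟨H, hH, hHS⟩ := exists_fixed (α := Submodule F W) hS.2.1 (X := {x | Hy x})
    (Set.toFinite _) (fun g _ x hx => Hy.im hx) (by rw [ncard_hys]; exact hnd)
  obtain ⟨x, hx, hxS⟩ := exists_fixed (α := Submodule F W) hS.2.1 (X := {x | Pt x})
    (Set.toFinite _) (fun g _ x hx => Pt.im hx) (by rw [ncard_pts]; exact hnd)
  have hH : Hy H := hH
  have hx : Pt x := hx
  have hHS : ∀ g ∈ S, im g H = H := hHS
  have hxS : ∀ g ∈ S, im g x = x := hxS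
  -- transitivity on the points outside H
  have t1 : ∀ y z, Pt y → Pt z → ¬ y ≤ H → ¬ z ≤ H → ∃ g ∈ S, im g y = z := by
    have hSR : S ≤ G ⊓ MulAction.stabilizer (W ≃ₗ[F] W) H := fun g hg => ⟨hS.1 hg, hHS g hg⟩
    have hR := hS.mono hSR inf_le_left
    have key := trans_of_pow (α := Submodule F W) hSR hR.2.2 (X := {x | Pt x ∧ ¬ x ≤ H})
      (Set.toFinite _) (fun g hg x hx => ⟨Pt.im hx.1, fun hc => hx.2 (by
        have h1 : im g H = H := hg.2
        have h2 : im g x ≤ H := hc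
        rw [← h1] at h2
        exact (im_le_im_iff g).1 h2)⟩)
      (fun y hy z hz => by
        obtain ⟨g, hg, h1, h2⟩ := h y H z H hy.1 hH hz.1 hH hy.2 hz.2
        exact ⟨g, ⟨hg, h2⟩, h1⟩) (a := n * (finrank F W - 1))
      (by rw [ncard_pts_out hH, hq, pow_mul])
    intro y z hy hz hyH hzH
    exact key y ⟨hy, hyH⟩ z ⟨hz, hzH⟩
  have t2 : ∀ y z, Hy y → Hy z → ¬ x ≤ y → ¬ x ≤ z → ∃ g ∈ S, im g y = z := by
    have hSR : S ≤ G ⊓ MulAction.stabilizer (W ≃ₗ[F] W) x := fun g hg => ⟨hS.1 hg, hxS g hg⟩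
    have hR := hS.mono hSR inf_le_left
    have key := trans_of_pow (α := Submodule F W) hSR hR.2.2 (X := {H | Hy H ∧ ¬ x ≤ H})
      (Set.toFinite _) (fun g hg H hH => ⟨Hy.im hH.1, fun hc => hH.2 (by
        have h1 : im g x = x := hg.2
        have h2 : x ≤ im g H := hc
        rw [← h1] at h2
        exact (im_le_im_iff g).1 h2)⟩)
      (fun y hy z hz => by
        obtain ⟨g, hg, h1, h2⟩ := h x y x z hx hy.1 hx hz.1 hy.2 hz.2
        exact ⟨g, ⟨hg, h1⟩, h2⟩) (a := n * (finrank F W - 1))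
      (by rw [ncard_hys_out hx, hq, pow_mul])
    intro y z hy hz hyH hzH
    exact key y ⟨hy, hyH⟩ z ⟨hz, hzH⟩
  have hxH : x ≤ H := by
    by_contra hc
    have h1 : {y : Submodule F W | Pt y ∧ ¬ y ≤ H} ⊆ {x} := by
      intro y hy
      obtain ⟨g, hg, h2⟩ := t1 x y hx hy.1 hc hy.2
      rw [Set.mem_singleton_iff, ← h2]
      exact hxS g hg
    have h2 := Set.ncard_le_ncard h1 (Set.toFinite _)
    rw [ncard_pts_out hH, Set.ncard_singleton] at h2
    have h3 : 2 ≤ Nat.card F := Finite.one_lt_card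
    have h4 : Nat.card F ^ 1 ≤ Nat.card F ^ (finrank F W - 1) :=
      Nat.pow_le_pow_right (by omega) (by omega)
    rw [pow_one] at h4
    omega
  refine ⟨x, H, hx, hH, hxH, ?_, ?_⟩
  · intro y z hy hz hyH hzH
    obtain ⟨g, hg, h1⟩ := t1 y z hy hz hyH hzH
    exact ⟨g, hS.1 hg, hxS g hg, hHS g hg, h1⟩
  · intro y z hy hz hyH hzH
    obtain ⟨g, hg, h1⟩ := t2 y z hy hz hyH hzH
    exact ⟨g, hS.1 hg, hxS g hg, hHS g hg, h1⟩

end fin

/-- `B x` -/
def BB (G : Subgroup (W ≃ₗ[F] W)) (x : Submodule F W) : Submodule F W := sInf {H | Phi G x H}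
/-- `C H` -/
def CC (G : Subgroup (W ≃ₗ[F] W)) (H : Submodule F W) : Submodule F W := sSup {x | Phi G x H}

theorem im_BB {G : Subgroup (W ≃ₗ[F] W)} {g : W ≃ₗ[F] W} (hg : g ∈ G) (x : Submodule F W) :
    BB G (im g x) = im g (BB G x) := by
  have key : ∀ g ∈ G, ∀ x, im g (BB G x) ≤ BB G (im g x) := by
    intro g hg x
    apply le_sInf
    intro H hH
    have h1 : Phi G (im g⁻¹ (im g x)) (im g⁻¹ H) := Phi.im hH (G.inv_mem hg)
    rw [im_inv_im] at h1
    have h2 : BB G x ≤ im g⁻¹ H := sInf_le h1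
    have h3 := im_mono g h2
    rwa [im_im_inv] at h3
  refine le_antisymm ?_ (key g hg x)
  have h1 := key g⁻¹ (G.inv_mem hg) (im g x)
  rw [im_inv_im] at h1
  have h2 := im_mono g h1
  rwa [im_im_inv] at h2

theorem im_CC {G : Subgroup (W ≃ₗ[F] W)} {g : W ≃ₗ[F] W} (hg : g ∈ G) (x : Submodule F W) :
    CC G (im g x) = im g (CC G x) := by
  have key : ∀ g ∈ G, ∀ x, CC G (im g x) ≤ im g (CC G x) := by
    intro g hg x
    apply sSup_le
    intro H hH
    have h1 : Phi G (im g⁻¹ H) (im g⁻¹ (im g x)) := Phi.im hH (G.inv_mem hg)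
    rw [im_inv_im] at h1
    have h2 : im g⁻¹ H ≤ CC G x := le_sSup h1
    have h3 := im_mono g h2
    rwa [im_im_inv] at h3
  refine le_antisymm (key g hg x) ?_
  have h1 := key g⁻¹ (G.inv_mem hg) (im g x)
  rw [im_inv_im] at h1
  have h2 := im_mono g h1
  rwa [im_im_inv] at h2

theorem exists_of_not_le_BB {G : Subgroup (W ≃ₗ[F] W)} {x y : Submodule F W}
    (h : ¬ y ≤ BB G x) : ∃ H, Phi G x H ∧ ¬ y ≤ H := by
  by_contra hc
  push Not at hc
  exact h (le_sInf fun H hH => hc H hH)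

theorem exists_of_not_CC_le {G : Subgroup (W ≃ₗ[F] W)} {x y : Submodule F W}
    (h : ¬ CC G x ≤ y) : ∃ z, Phi G z x ∧ ¬ z ≤ y := by
  by_contra hc
  push Not at hc
  exact h (sSup_le fun H hH => hc H hH)

theorem trB {G : Subgroup (W ≃ₗ[F] W)} {x y z : Submodule F W} (hy : Pt y) (hz : Pt z)
    (h1 : ¬ y ≤ BB G x) (h2 : ¬ z ≤ BB G x) : ∃ g ∈ G, im g x = x ∧ im g y = z := by
  obtain ⟨H, hH, hyH⟩ := exists_of_not_le_BB h1
  obtain ⟨H', hH', hzH⟩ := exists_of_not_le_BB h2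
  obtain ⟨w, hw, -, hw1, hw2⟩ := exists_pt_not_le₂ (U := ⊤) (A := H) (B := H')
    (fun hc => hH.2.1.ne_top (eq_top_iff.2 hc)) (fun hc => hH'.2.1.ne_top (eq_top_iff.2 hc))
  obtain ⟨g, hg, g1, g2, g3⟩ := hH.2.2.2.1 y w hy hw hyH hw1
  obtain ⟨k, hk, k1, k2, k3⟩ := hH'.2.2.2.1 w z hw hz hw2 hzH
  refine ⟨k * g, G.mul_mem hk hg, ?_, ?_⟩
  · rw [im_mul, g1, k1]
  · rw [im_mul, g3, k3]

theorem trC [FiniteDimensional F W] {G : Subgroup (W ≃ₗ[F] W)} {H H₁ H₂ : Submodule F W}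
    (hy : Hy H₁) (hz : Hy H₂)
    (h1 : ¬ CC G H ≤ H₁) (h2 : ¬ CC G H ≤ H₂) : ∃ g ∈ G, im g H = H ∧ im g H₁ = H₂ := by
  obtain ⟨x, hx, hyH⟩ := exists_of_not_CC_le h1
  obtain ⟨x', hx', hzH⟩ := exists_of_not_CC_le h2
  obtain ⟨w, hw, -, hw1, hw2⟩ := exists_hy_not_ge₂ (T := ⊥) (A := x) (B := x')
    (fun hc => hx.1.ne_bot (eq_bot_iff.2 hc)) (fun hc => hx'.1.ne_bot (eq_bot_iff.2 hc))
  obtain ⟨g, hg, g1, g2, g3⟩ := hx.2.2.2.2 H₁ w hy hw hyH hw1
  obtain ⟨k, hk, k1, k2, k3⟩ := hx'.2.2.2.2 w H₂ hw hz hw2 hzH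
  refine ⟨k * g, G.mul_mem hk hg, ?_, ?_⟩
  · rw [im_mul, g2, k2]
  · rw [im_mul, g3, k3]

/-- the subgroup fixing `x` -/
def fix (G : Subgroup (W ≃ₗ[F] W)) (x : Submodule F W) : Subgroup (W ≃ₗ[F] W) where
  carrier := {g | g ∈ G ∧ im g x = x}
  one_mem' := ⟨G.one_mem, im_one x⟩
  mul_mem' := by
    rintro a b ⟨ha, ha'⟩ ⟨hb, hb'⟩
    exact ⟨G.mul_mem ha hb, by rw [im_mul, hb', ha']⟩
  inv_mem' := by
    rintro a ⟨ha, ha'⟩
    exact ⟨G.inv_mem ha, im_inv_of_eq ha'⟩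

theorem mem_fix {G : Subgroup (W ≃ₗ[F] W)} {x : Submodule F W} {g : W ≃ₗ[F] W} :
    g ∈ fix G x ↔ g ∈ G ∧ im g x = x := Iff.rfl

theorem down_pt {U X : Submodule F W} {Y : Submodule F (W ⧸ U)} (hY : Pt Y) :
    ∃ y, Pt y ∧ ¬ y ≤ U ∧ y.map U.mkQ = Y := by
  obtain ⟨v', hv', rfl⟩ := hY.exists_span
  obtain ⟨v, rfl⟩ := U.mkQ_surjective v'
  have hvU : v ∉ U := fun hc => hv' (by simpa using hc)
  refine ⟨F ∙ v, pt_span (fun h0 => hvU (by rw [h0]; exact zero_mem _)), ?_, ?_⟩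
  · rw [span_singleton_le_iff_mem]; exact hvU
  · rw [Submodule.map_span, Set.image_singleton]

section
variable [Finite F] [FiniteDimensional F W]

theorem trBH (br1 : BR1) {G : Subgroup (W ≃ₗ[F] W)} {x H₁ H₂ : Submodule F W}
    (hH₁ : Hy H₁) (hH₂ : Hy H₂) (h1 : BB G x ≤ H₁) (h2 : BB G x ≤ H₂) :
    ∃ g ∈ G, im g x = x ∧ im g H₁ = H₂ := by
  have hU : ∀ g ∈ G, im g x = x → im g (BB G x) = BB G x := by
    intro g hg hgx
    rw [← im_BB hg, hgx]
  have hpt : PtTrans (qGrp (fix G x) (BB G x)) := by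
    intro X Y hX hY
    obtain ⟨y, hy, hyU, rfl⟩ := down_pt (X := ⊥) hX
    obtain ⟨z, hz, hzU, rfl⟩ := down_pt (X := ⊥) hY
    obtain ⟨g, hg, g1, g2⟩ := trB hy hz hyU hzU
    obtain ⟨g', hg', h3⟩ := exists_qGrp (K := fix G x) (k := g) ⟨hg, g1⟩ (hU g hg g1)
    exact ⟨g', hg', by rw [im_down h3, g2]⟩
  have hhy := (br1 F (W ⧸ BB G x) _).1 hpt
  obtain ⟨g', ⟨k, ⟨hk, hkx⟩, hkU, h3⟩, h4⟩ := hhy _ _ (hH₁.down h1) (hH₂.down h2)
  refine ⟨k, hk, hkx, ?_⟩
  rw [im_down h3] at h4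
  refine (down_inj ?_ h2).1 h4
  calc BB G x = im k (BB G x) := hkU.symm
    _ ≤ im k H₁ := im_mono k h1

theorem trCx (br1 : BR1) {G : Subgroup (W ≃ₗ[F] W)} {H x y : Submodule F W}
    (hx : Pt x) (hy : Pt y) (h1 : x ≤ CC G H) (h2 : y ≤ CC G H) :
    ∃ g ∈ G, im g H = H ∧ im g x = y := by
  have hU : ∀ g ∈ G, im g H = H → im g (CC G H) = CC G H := by
    intro g hg hgx
    rw [← im_CC hg, hgx]
  have hcut : ∀ Y : Submodule F (CC G H), Hy Y → ∃ M, Hy M ∧ ¬ CC G H ≤ M ∧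
      Y.map (CC G H).subtype = CC G H ⊓ M := by
    intro Y hY
    have h3 : ¬ CC G H ≤ Y.map (CC G H).subtype := by
      intro hc
      have h4 := Submodule.finrank_mono hc
      rw [finrank_incl] at h4
      rw [Hy] at hY
      omega
    obtain ⟨M, hM, hM1, hM2⟩ := exists_hy_not_ge h3
    refine ⟨M, hM, hM2, ?_⟩
    apply Submodule.eq_of_le_of_finrank_eq (le_inf (incl_le Y) hM1)
    have h5 := finrank_inf_hy hM hM2
    rw [finrank_incl]
    rw [Hy] at hY
    omega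
  have hhy : HyTrans (sGrp (fix G H) (CC G H)) := by
    intro X Y hX hY
    obtain ⟨M, hM, hM1, hM2⟩ := hcut X hX
    obtain ⟨M', hM', hM1', hM2'⟩ := hcut Y hY
    obtain ⟨g, hg, g1, g2⟩ := trC hM hM' hM1 hM1'
    obtain ⟨g', hg', h3⟩ := exists_sGrp (K := fix G H) (k := g) ⟨hg, g1⟩ (hU g hg g1)
    refine ⟨g', hg', ?_⟩
    have h4 : (im g' X).map (CC G H).subtype = Y.map (CC G H).subtype := by
      rw [im_incl h3, hM2, im_inf, hU g hg g1, g2, hM2']
    exact le_antisymm (incl_le_incl.1 h4.le) (incl_le_incl.1 h4.ge)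
  have hpt := (br1 F (CC G H) _).2 hhy
  obtain ⟨g', ⟨k, ⟨hk, hkH⟩, hkU, h3⟩, h4⟩ := hpt (x.comap (CC G H).subtype)
    (y.comap (CC G H).subtype) (by rw [Pt, finrank_restr h1]; exact hx)
    (by rw [Pt, finrank_restr h2]; exact hy)
  refine ⟨k, hk, hkH, ?_⟩
  have h5 := im_incl h3 (x.comap (CC G H).subtype)
  rw [h4, incl_restr h1, incl_restr h2] at h5
  exact h5.symm

/-- **M2** -/
theorem m2 (br1 : BR1) : M2 := by
  intro F _ _ W _ _ _ G hm h
  have hpt := ptTrans h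
  have hhy := hyTrans h
  obtain ⟨x₀, H₀, h₀⟩ := exists_phi h hm
  have ex1 : ∀ x, Pt x → ∃ H, Phi G x H := by
    intro x hx
    obtain ⟨g, hg, rfl⟩ := hpt x₀ x h₀.1 hx
    exact ⟨_, h₀.im hg⟩
  have ex2 : ∀ H, Hy H → ∃ x, Phi G x H := by
    intro x hx
    obtain ⟨g, hg, rfl⟩ := hhy H₀ x h₀.2.1 hx
    exact ⟨_, h₀.im hg⟩
  have c1 : ∀ x H, Pt x → Hy H → (Phi G x H ↔ BB G x ≤ H) := by
    intro x H hx hH
    constructor
    · intro h1; exact sInf_le h1
    · intro h1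
      obtain ⟨H', hH'⟩ := ex1 x hx
      obtain ⟨g, hg, g1, g2⟩ := trBH br1 (G := G) hH'.2.1 hH (sInf_le hH') h1
      have := hH'.im hg
      rwa [g1, g2] at this
  have c2 : ∀ x H, Pt x → Hy H → (Phi G x H ↔ x ≤ CC G H) := by
    intro x H hx hH
    constructor
    · intro h1; exact le_sSup h1
    · intro h1
      obtain ⟨x', hx'⟩ := ex2 H hH
      obtain ⟨g, hg, g1, g2⟩ := trCx br1 (G := G) hx'.1 hx (le_sSup hx') h1
      have := hx'.im hg
      rwa [g1, g2] at this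
  have adj : ∀ x H, Pt x → Hy H → (x ≤ CC G H ↔ BB G x ≤ H) := fun x H hx hH =>
    (c2 x H hx hH).symm.trans (c1 x H hx hH)
  have selfB : ∀ x, Pt x → x ≤ BB G x := fun x hx => le_sInf fun H hH => hH.2.2.1
  have hb : ∀ x, Pt x → finrank F (BB G x) = finrank F (BB G x₀) := by
    intro x hx
    obtain ⟨g, hg, rfl⟩ := hpt x₀ x h₀.1 hx
    rw [im_BB hg, finrank_im]
  have hc : ∀ x, Hy x → finrank F (CC G x) = finrank F (CC G H₀) := by
    intro x hx
    obtain ⟨g, hg, rfl⟩ := hhy H₀ x h₀.2.1 hx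
    rw [im_CC hg, finrank_im]
  have hq : 2 ≤ Nat.card F := Finite.one_lt_card
  -- counting
  have hcount : br (Nat.card F) (finrank F W - finrank F (BB G x₀)) =
      br (Nat.card F) (finrank F (CC G H₀)) := by
    have h1 := dbl (α := {x : Submodule F W // Pt x}) (β := {H : Submodule F W // Hy H})
      (fun x H => Phi G x.1 H.1)
      (a := br (Nat.card F) (finrank F W - finrank F (BB G x₀)))
      (b := br (Nat.card F) (finrank F (CC G H₀)))
      (by
        rintro ⟨x, hx⟩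
        rw [← hb x hx, ← card_hys_ge]
        refine Nat.card_congr
          { toFun := fun H => ⟨H.1.1, H.1.2, (c1 x _ hx H.1.2).1 H.2⟩
            invFun := fun H => ⟨⟨H.1, H.2.1⟩, (c1 x _ hx H.2.1).2 H.2.2⟩
            left_inv := fun H => rfl
            right_inv := fun H => rfl })
      (by
        rintro ⟨H, hH⟩
        rw [← hc H hH, ← card_pts_le]
        refine Nat.card_congr
          { toFun := fun x => ⟨x.1.1, x.1.2, (c2 _ H x.1.2 hH).1 x.2⟩
            invFun := fun x => ⟨⟨x.1, x.2.1⟩, (c2 _ H x.2.1 hH).2 x.2.2⟩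
            left_inv := fun H => rfl
            right_inv := fun H => rfl })
    have h2 : Nat.card {H : Submodule F W // Hy H} = br (Nat.card F) (finrank F W) := by
      rw [← ncard_hys (F := F) (W := W), ← Nat.card_coe_set_eq]; rfl
    rw [card_pts, h2] at h1
    exact Nat.eq_of_mul_eq_mul_left (br_pos (by omega)) h1
  have hdim : finrank F W - finrank F (BB G x₀) = finrank F (CC G H₀) := by
    rcases lt_trichotomy (finrank F W - finrank F (BB G x₀)) (finrank F (CC G H₀)) with h1 | h1 | h1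
    · have := br_strictMono (q := Nat.card F) (by omega) h1; omega
    · exact h1
    · have := br_strictMono (q := Nat.card F) (by omega) h1; omega
  have hble := Submodule.finrank_le (BB G x₀)
  have hb1 : 1 ≤ finrank F (BB G x₀) := by
    have := Submodule.finrank_mono (selfB x₀ h₀.1)
    rw [h₀.1] at this
    exact this
  have hc1 : 1 ≤ finrank F (CC G H₀) := by
    have := Submodule.finrank_mono ((c2 x₀ H₀ h₀.1 h₀.2.1).1 h₀)
    rw [h₀.1] at this
    exact this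
  refine ⟨finrank F (CC G H₀), BB G, CC G, ?_⟩
  refine
    { c1 := hc1
      cm := by omega
      dimB := fun x hx => by rw [hb x hx]; omega
      dimC := fun H hH => hc H hH
      selfB := selfB
      symB := ?_
      adj := adj
      eqB := fun g hg x _ => im_BB hg x
      eqC := fun g hg x _ => im_CC hg x
      ptT := hpt
      hyT := hhy
      trB := fun x y z _ hy hz h1 h2 => trB hy hz h1 h2
      trC := fun H H₁ H₂ _ hy hz h1 h2 => trC hy hz h1 h2
      trBH := fun x H₁ H₂ _ hy hz h1 h2 => trBH br1 hy hz h1 h2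
      trCx := fun H x y _ hx hy h1 h2 => trCx br1 hx hy h1 h2 }
  intro x y hx hy hyx
  by_contra hxy
  have htot : ∀ u v, Pt u → Pt v → u ≤ BB G v ∨ v ≤ BB G u := by
    intro u v hu hv
    by_contra hcc
    push Not at hcc
    obtain ⟨h1, h2⟩ := hcc
    obtain ⟨g, hg, g1⟩ := hpt y v hy hv
    have h3 : ¬ im g x ≤ BB G v := by
      rw [← g1, im_BB hg, im_le_im_iff]; exact hxy
    obtain ⟨k, hk, k1, k2⟩ := trB (G := G) (x := v) (hx.im (g := g)) hu h3 h1
    apply h2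
    have h4 : im k (im g y) ≤ im k (im g (BB G x)) := im_mono k (im_mono g hyx)
    rw [g1, k1, ← im_BB hg, ← im_BB hk, k2] at h4
    exact h4
  have h5 : Nat.card {x : Submodule F W // Pt x} ≤
      2 * br (Nat.card F) (finrank F (BB G x₀)) := by
    have : Nonempty {x : Submodule F W // Pt x} := ⟨⟨x, hx⟩⟩
    apply dbl2 (α := {x : Submodule F W // Pt x}) (fun u v => v.1 ≤ BB G u.1)
    · rintro ⟨u, hu⟩
      rw [← hb u hu, ← card_pts_le]
      exact Nat.card_congr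
        { toFun := fun x => ⟨x.1.1, x.1.2, x.2⟩
          invFun := fun x => ⟨⟨x.1, x.2.1⟩, x.2.2⟩
          left_inv := fun H => rfl
          right_inv := fun H => rfl }
    · rintro ⟨u, hu⟩ ⟨v, hv⟩
      exact (htot u v hu hv).symm
  rw [card_pts] at h5
  have h6 : br (Nat.card F) (finrank F (BB G x₀)) ≤ br (Nat.card F) (finrank F W - 1) :=
    br_mono (by omega)
  obtain ⟨k, hk⟩ := Nat.exists_eq_add_of_le hm
  have h7 : finrank F W = (k + 1) + 1 := by omega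
  rw [h7, br_succ'] at h5
  rw [h7] at h6
  have h8 : k + 1 + 1 - 1 = k + 1 := by omega
  rw [h8] at h6
  nlinarith

end

end Helper89M2
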